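import Mathlib

set_option autoImplicit false

/-!
Direct products of tunable frames need not be tunable.
-/

namespace Pool.Agent.Results.MP_b20271_lc.ProductNotTunable

variable {W W₁ W₂ : Type}

/-- The partition `B` refines the partition `A`: every member of `A` is a union of members
of `B`. -/
def Refines (B A : Set (Set W)) : Prop := ∀ a ∈ A, ∃ S ⊆ B, a = ⋃₀ S

/-- The family `A` is tuned in the frame `(W, R)`. -/
def IsTuned (R : W → W → Prop) (A : Set (Set W)) : Prop :=
  ∀ U ∈ A, ∀ V ∈ A, (∃ u ∈ U, ∃ v ∈ V, R u v) → ∀ u ∈ U, ∃ v ∈ V, R u v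

/-- The frame `(W, R)` is tunable: every finite partition of `W` has a finite refinement that is
tuned in `(W, R)`.  (`Setoid.IsPartition`: non-empty, pairwise disjoint sets covering `W`.) -/
def Tunable (R : W → W → Prop) : Prop :=
  ∀ A : Set (Set W), Setoid.IsPartition A → A.Finite →
    ∃ B : Set (Set W), Setoid.IsPartition B ∧ B.Finite ∧ Refines B A ∧ IsTuned R B

/-- The direct product of two frames: one relation, acting coordinatewise. -/
def directProduct (R₁ : W₁ → W₁ → Prop) (R₂ : W₂ → W₂ → Prop) : W₁ × W₂ → W₁ × W₂ → Prop :=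
  fun x y => R₁ x.1 y.1 ∧ R₂ x.2 y.2

/-- The infinite fan: `0` is the root, below infinitely many pairwise incomparable points. -/
def fan (a b : ℕ) : Prop := a = 0 ∨ a = b

/-- Tunability from colourings. -/
theorem tunable_of_colouring (R : W → W → Prop)
    (h : ∀ A : Set (Set W), Setoid.IsPartition A → A.Finite →
      ∃ (K : Type) (_ : Finite K) (g : W → K),
        (∀ x y, g x = g y → ∀ a ∈ A, x ∈ a → y ∈ a) ∧
        (∀ u u' v, g u = g u' → R u v → ∃ v', R u' v' ∧ g v' = g v)) :
    Tunable R := by
  intro A hA hfin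
  obtain ⟨K, hK, g, h1, h2⟩ := h A hA hfin
  refine ⟨(Setoid.ker g).classes, Setoid.isPartition_classes _, ?_, ?_, ?_⟩
  · have : (Setoid.ker g).classes ⊆ Set.range (fun k : K => g ⁻¹' {k}) := by
      rintro s ⟨y, rfl⟩
      refine ⟨g y, ?_⟩
      ext x
      simp [Setoid.ker_def]
    exact (Set.finite_range _).subset this
  · intro a ha
    refine ⟨{s | s ∈ (Setoid.ker g).classes ∧ s ⊆ a}, fun s hs => hs.1, ?_⟩
    ext x
    constructor
    · intro hx
      refine ⟨{y | (Setoid.ker g) y x}, ⟨⟨x, rfl⟩, ?_⟩, ?_⟩
      · intro y hy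
        exact h1 x y (by
          have : g y = g x := hy
          exact this.symm) a ha hx
      · show g x = g x
        rfl
    · rintro ⟨s, ⟨-, hs⟩, hx⟩
      exact hs hx
  · rintro U ⟨x, rfl⟩ V ⟨y, rfl⟩ ⟨u, hu, v, hv, huv⟩ u' hu'
    have e : g u = g u' := by
      have e1 : g u = g x := hu
      have e2 : g u' = g x := hu'
      rw [e1, e2]
    obtain ⟨v', h3, h4⟩ := h2 u u' v e huv
    refine ⟨v', ?_, h3⟩
    show g v' = g y
    have : g v = g y := hv
    rw [h4, this]

/-- The block of a point in a partition. -/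
theorem exists_block {A : Set (Set W)} (hA : Setoid.IsPartition A) (x : W) :
    ∃ b ∈ A, x ∈ b := by
  obtain ⟨b, hb, -⟩ := hA.2 x
  exact ⟨b, hb.1, hb.2⟩

theorem block_unique {A : Set (Set W)} (hA : Setoid.IsPartition A) {x : W} {b c : Set W}
    (hb : b ∈ A) (hc : c ∈ A) (hxb : x ∈ b) (hxc : x ∈ c) : b = c := by
  obtain ⟨d, -, hd⟩ := hA.2 x
  rw [hd b ⟨hb, hxb⟩, hd c ⟨hc, hxc⟩]

theorem tunable_fan : Tunable fan := by
  classical
  apply tunable_of_colouring
  intro A hA hfin
  choose blk hblk hmem using exists_block hA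
  have := hfin.to_subtype
  refine ⟨Option A, inferInstance, fun x => if x = 0 then none else some ⟨blk x, hblk x⟩, ?_, ?_⟩
  · intro x y hxy a ha hx
    by_cases hx0 : x = 0
    · by_cases hy0 : y = 0
      · rw [hy0, ← hx0]; exact hx
      · simp [hx0, hy0] at hxy
    · by_cases hy0 : y = 0
      · simp [hx0, hy0] at hxy
      · simp only [if_neg hx0, if_neg hy0, Option.some.injEq, Subtype.mk.injEq] at hxy
        have : a = blk x := block_unique hA ha (hblk x) hx (hmem x)
        rw [this, hxy]
        exact hmem y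
  · intro u u' v huu' huv
    by_cases hu0 : u = 0
    · by_cases hu0' : u' = 0
      · exact ⟨v, Or.inl hu0', rfl⟩
      · simp [hu0, hu0'] at huu'
    · rcases huv with h | h
      · exact absurd h hu0
      · subst h
        exact ⟨u', Or.inr rfl, huu'.symm⟩

theorem tunable_le : Tunable (fun a b : ℕ => a ≤ b) := by
  classical
  apply tunable_of_colouring
  intro A hA hfin
  choose blk hblk hmem using exists_block hA
  have := hfin.to_subtype
  -- beyond `N` only infinite blocks occur
  obtain ⟨N, hN⟩ : ∃ N : ℕ, ∀ a ∈ A, a.Finite → ∀ x ∈ a, x < N := by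
    have hU : (⋃₀ {a | a ∈ A ∧ a.Finite}).Finite :=
      Set.Finite.sUnion (hfin.subset fun a ha => ha.1) (fun a ha => ha.2)
    obtain ⟨M, hM⟩ := hU.bddAbove
    refine ⟨M + 1, fun a ha haf x hx => ?_⟩
    have := hM (show x ∈ ⋃₀ {a | a ∈ A ∧ a.Finite} from ⟨a, ⟨ha, haf⟩, hx⟩)
    omega
  refine ⟨Fin N ⊕ A, inferInstance,
    fun x => if h : x < N then Sum.inl ⟨x, h⟩ else Sum.inr ⟨blk x, hblk x⟩, ?_, ?_⟩
  · intro x y hxy a ha hx
    by_cases hx0 : x < N
    · by_cases hy0 : y < N
      · simp only [hx0, hy0, dif_pos, Sum.inl.injEq, Fin.mk.injEq] at hxy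
        rw [← hxy]; exact hx
      · simp [hx0, hy0] at hxy
    · by_cases hy0 : y < N
      · simp [hx0, hy0] at hxy
      · simp only [hx0, hy0, dif_neg, not_false_iff, Sum.inr.injEq, Subtype.mk.injEq] at hxy
        have : a = blk x := block_unique hA ha (hblk x) hx (hmem x)
        rw [this, hxy]
        exact hmem y
  · intro u u' v huu' huv
    by_cases hu0 : u < N
    · by_cases hu0' : u' < N
      · simp only [hu0, hu0', dif_pos, Sum.inl.injEq, Fin.mk.injEq] at huu'
        subst huu'
        exact ⟨v, huv, rfl⟩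
      · simp [hu0, hu0'] at huu'
    · by_cases hu0' : u' < N
      · simp [hu0, hu0'] at huu'
      · have hv : ¬ v < N := by
          have : u ≤ v := huv
          omega
        have hinf : (blk v).Infinite := by
          intro hf
          exact hv (hN (blk v) (hblk v) hf v (hmem v))
        obtain ⟨v', hv', hlt⟩ := hinf.exists_gt (max u' N)
        have h1 : u' ≤ v' := by
          have := le_max_left u' N
          omega
        have h2 : ¬ v' < N := by
          have := le_max_right u' N
          omega
        refine ⟨v', h1, ?_⟩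
        simp only [h2, hv, dif_neg, not_false_iff, Sum.inr.injEq, Subtype.mk.injEq]
        exact block_unique hA (hblk v') (hblk v) (hmem v') hv'

/-- The colouring of `ℕ × ℕ` used for the counterexample: in the column `n`, the points below `n`
are coloured alternatingly, all others get the third colour. -/
def col (x : ℕ × ℕ) : Fin 3 := if x.2 < x.1 then (if x.2 % 2 = 0 then 0 else 1) else 2

theorem not_tunable_product : ¬ Tunable (directProduct fan (fun a b : ℕ => a ≤ b)) := by
  classical
  intro hT
  obtain ⟨B, hB, hBfin, href, htuned⟩ := hT (Setoid.ker col).classes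
    (Setoid.isPartition_classes _) (by
      have : (Setoid.ker col).classes ⊆ Set.range (fun k : Fin 3 => col ⁻¹' {k}) := by
        rintro s ⟨y, rfl⟩
        refine ⟨col y, ?_⟩
        ext x
        simp [Setoid.ker_def]
      exact (Set.finite_range _).subset this)
  -- points in one block have the same colour
  have hcol : ∀ b ∈ B, ∀ x ∈ b, ∀ y ∈ b, col x = col y := by
    intro b hb x hx y hy
    obtain ⟨S, hS, hS'⟩ := href {z | (Setoid.ker col) z x} ⟨x, rfl⟩
    have hxm : x ∈ ⋃₀ S := by
      rw [← hS']
      show col x = col x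
      rfl
    obtain ⟨c, hc, hxc⟩ := hxm
    have hbc : b = c := block_unique hB hb (hS hc) hx hxc
    have hym : y ∈ ⋃₀ S := ⟨c, hc, hbc ▸ hy⟩
    rw [← hS'] at hym
    exact (show col y = col x from hym).symm
  -- the distance to the end of the alternating part is invariant
  have key : ∀ k : ℕ, ∀ b ∈ B, ∀ x ∈ b, ∀ y ∈ b, x.2 + (k + 1) ≤ x.1 → y.2 + (k + 1) ≤ y.1 := by
    intro k
    induction k with
    | zero =>
      intro b hb x hx y hy h
      have hc := hcol b hb x hx y hy
      by_contra hcon
      have h1 : x.2 < x.1 := by omega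
      have h2 : ¬ y.2 < y.1 := by omega
      unfold col at hc
      rw [if_pos h1, if_neg h2] at hc
      split_ifs at hc <;> simp at hc
    | succ k ih =>
      intro b hb x hx y hy h
      obtain ⟨c, hc, hvc⟩ := exists_block hB (x.1, x.2 + 1)
      obtain ⟨v', hv', hyv'⟩ := htuned b hb c hc
        ⟨x, hx, (x.1, x.2 + 1), hvc, ⟨Or.inr rfl, Nat.le_succ _⟩⟩ y hy
      have h1 := ih c hc _ hvc v' hv' (by show x.2 + 1 + (k + 1) ≤ x.1; omega)
      have hcy := hcol b hb x hx y hy
      have hcv := hcol c hc _ hvc v' hv'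
      have hx1 : x.2 < x.1 := by omega
      have hx2 : x.2 + 1 < x.1 := by omega
      have hy1 : y.2 < y.1 := by
        by_contra hcon
        unfold col at hcy
        rw [if_pos hx1, if_neg hcon] at hcy
        split_ifs at hcy <;> simp at hcy
      have hv1 : v'.1 = y.1 := by
        rcases hyv'.1 with h0 | h0
        · omega
        · exact h0.symm
      have hv2 : y.2 ≤ v'.2 := hyv'.2
      have hne : y.2 ≠ v'.2 := by
        intro heq
        have hyv : v' = y := Prod.ext hv1 heq.symm
        rw [hyv, ← hcy] at hcv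
        unfold col at hcv
        simp only [if_pos hx1, if_pos hx2] at hcv
        rcases Nat.mod_two_eq_zero_or_one x.2 with h0 | h0
        · have : (x.2 + 1) % 2 = 1 := by omega
          simp [h0, this] at hcv
        · have : (x.2 + 1) % 2 = 0 := by omega
          simp [h0, this] at hcv
      omega
  -- pigeonhole in a long column
  have := hBfin.to_subtype
  choose blk hblk hmem using exists_block hB
  obtain ⟨i, j, hij, heq⟩ := Finite.exists_ne_map_eq_of_infinite
    (fun i : ℕ => (⟨blk (i, 0), hblk (i, 0)⟩ : B))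
  have aux : ∀ i j : ℕ, i < j → blk (i, 0) = blk (j, 0) → False := by
    intro i j hlt he
    have := key (j - 1) (blk (j, 0)) (hblk _) (j, 0) (hmem _) (i, 0) (he ▸ hmem (i, 0))
      (by show 0 + (j - 1 + 1) ≤ j; omega)
    simp only at this
    omega
  simp only [Subtype.mk.injEq] at heq
  rcases lt_or_gt_of_ne hij with h | h
  · exact aux i j h heq
  · exact aux j i h heq.symm

/-- The infinite fan and `(ω, ≤)` are tunable rooted partial orders whose direct product is not
tunable. -/
theorem result :
    Tunable fan ∧ Tunable (fun a b : ℕ => a ≤ b) ∧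
      ¬ Tunable (directProduct fan (fun a b : ℕ => a ≤ b)) :=
  ⟨tunable_fan, tunable_le, not_tunable_product⟩

end Pool.Agent.Results.MP_b20271_lc.ProductNotTunable
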